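import Mathlib
import Pool.Agent.H9.Tour

namespace Pool.Agent.Results.MP_9038fc_co.Gap

open Pool.Agent.H9.Tour

/-- `T u v` means `u → v`; no loops, and exactly one arc between distinct vertices. -/
def IsTournament {n : ℕ} (T : Fin n → Fin n → Prop) : Prop :=
  (∀ u, ¬ T u u) ∧ ∀ u v, u ≠ v → (T u v ↔ ¬ T v u)

/-- The Hamiltonian circuits of `T`, as sets of arcs. -/
def circuits {n : ℕ} (T : Fin n → Fin n → Prop) : Set (Set (Fin n × Fin n)) :=
  {C | ∃ v : Equiv.Perm (Fin n), (∀ i, T (v i) (v (finRotate n i))) ∧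
    C = Set.range fun i => (v i, v (finRotate n i))}

/-- The number of Hamiltonian circuits. -/
noncomputable def numHC {n : ℕ} (T : Fin n → Fin n → Prop) : ℕ := (circuits T).ncard

/-- The largest number of Hamiltonian circuits of an `n`-tournament. -/
noncomputable def ho (n : ℕ) : ℕ :=
  sSup {h | ∃ T : Fin n → Fin n → Prop, IsTournament T ∧ numHC T = h}

def nxt (p : Fin 7 → Fin 7 → Bool) (x : Fin 7) : Fin 7 :=
  ((List.finRange 7).find? fun y => p x y).getD 0

def decode (p : Fin 7 → Fin 7 → Bool) : List (Fin 7) :=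
  (List.iterate (nxt p) 0 7).tail

lemma decode_ok : ∀ l ∈ PP, decode (fun x y => decide ((x, y) ∈ arcsOf l)) = l := by
  decide +kernel

lemma arcs_ne : ∀ l ∈ PP, ∀ a ∈ arcsOf l, a.1 ≠ a.2 := by decide +kernel
lemma KK_cov : ∀ x y : Fin 7, x ≠ y → (x, y) ∈ KK ∨ (y, x) ∈ KK := by decide +kernel

lemma PP_nodup : PP.Nodup := by
  unfold PP
  exact (List.permutations_perm_permutations' _).nodup_iff.1
    (List.nodup_permutations _ (by decide))

lemma mem_PP (l : List (Fin 7)) : l ∈ PP ↔ l.Perm [1, 2, 3, 4, 5, 6] := by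
  unfold PP; exact List.mem_permutations'

def rot (r : Fin 7) : List (Fin 7) := [r, r + 1, r + 2, r + 3, r + 4, r + 5, r + 6]

lemma rot_perm : ∀ r, (rot r).Perm (List.finRange 7) := by decide +kernel
lemma rot_succ : ∀ r : Fin 7, (rot r).map (finRotate 7) =
    [r + 1, r + 2, r + 3, r + 4, r + 5, r + 6, r] := by decide +kernel

lemma perm_to_list (v : Equiv.Perm (Fin 7)) : ∃ l ∈ PP,
    (Set.range fun i => (v i, v (finRotate 7 i))) = {a | a ∈ arcsOf l} := by
  set r := v.symm 0 with hr
  have h0 : v r = 0 := by simp [hr]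
  refine ⟨[v (r + 1), v (r + 2), v (r + 3), v (r + 4), v (r + 5), v (r + 6)], ?_, ?_⟩
  · rw [mem_PP]
    have h1 : ((rot r).map v).Perm (List.finRange 7) :=
      ((rot_perm r).map v).trans (Equiv.Perm.map_finRange_perm v)
    have h2 : List.finRange 7 = 0 :: [1, 2, 3, 4, 5, 6] := by decide
    rw [h2] at h1
    simp only [rot, List.map_cons, List.map_nil, h0] at h1
    exact h1.cons_inv
  · have h1 : arcsOf [v (r + 1), v (r + 2), v (r + 3), v (r + 4), v (r + 5), v (r + 6)] =
        (rot r).map fun i => (v i, v (finRotate 7 i)) := by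
      have h2 := rot_succ r
      simp only [rot, List.map_cons, List.map_nil, List.cons.injEq, and_true] at h2
      obtain ⟨e0, e1, e2, e3, e4, e5, e6⟩ := h2
      simp only [rot, List.map_cons, List.map_nil, e0, e1, e2, e3, e4, e5, e6, h0, arcsOf]
      rfl
    rw [h1]
    ext a
    simp only [Set.mem_range, Set.mem_ofPred_eq, List.mem_map]
    constructor
    · rintro ⟨i, hi⟩
      exact ⟨i, (rot_perm r).mem_iff.2 (List.mem_finRange i), hi⟩
    · rintro ⟨i, _, hi⟩
      exact ⟨i, hi⟩

lemma list_to_perm (l : List (Fin 7)) (hl : l ∈ PP) : ∃ v : Equiv.Perm (Fin 7),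
    (Set.range fun i => (v i, v (finRotate 7 i))) = {a | a ∈ arcsOf l} := by
  rw [mem_PP] at hl
  have hlen := hl.length_eq
  match l, hlen with
  | [a1, a2, a3, a4, a5, a6], _ =>
    have hnd : (0 :: [a1, a2, a3, a4, a5, a6]).Nodup :=
      (hl.cons 0).nodup_iff.2 (by decide)
    have hinj : Function.Injective ![0, a1, a2, a3, a4, a5, a6] := by
      have : List.ofFn ![0, a1, a2, a3, a4, a5, a6] = 0 :: [a1, a2, a3, a4, a5, a6] := rfl
      rw [← List.nodup_ofFn, this]; exact hnd
    refine ⟨Equiv.ofBijective _ (Finite.injective_iff_bijective.1 hinj), ?_⟩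
    have h1 : arcsOf [a1, a2, a3, a4, a5, a6] = List.ofFn fun i : Fin 7 =>
        (![0, a1, a2, a3, a4, a5, a6] i, ![0, a1, a2, a3, a4, a5, a6] (finRotate 7 i)) := rfl
    rw [h1]
    ext a
    simp only [Set.mem_range, Set.mem_ofPred_eq, List.mem_ofFn, Equiv.ofBijective_apply]

lemma numHC_eq (T : Fin 7 → Fin 7 → Prop) [DecidableRel T] :
    numHC T = PP.countP fun l => decide (∀ a ∈ arcsOf l, T a.1 a.2) := by
  have h1 : circuits T = (fun l => {a | a ∈ arcsOf l}) ''
      ((PP.filter fun l => decide (∀ a ∈ arcsOf l, T a.1 a.2)).toFinset : Set (List (Fin 7))) := by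
    ext C
    simp only [circuits, Set.mem_ofPred_eq, Set.mem_image, Finset.mem_coe, List.mem_toFinset,
      List.mem_filter, decide_eq_true_eq]
    constructor
    · rintro ⟨v, hv, rfl⟩
      obtain ⟨l, hl, e⟩ := perm_to_list v
      refine ⟨l, ⟨hl, fun a ha => ?_⟩, e.symm⟩
      have : a ∈ Set.range fun i => (v i, v (finRotate 7 i)) := by rw [e]; exact ha
      obtain ⟨i, rfl⟩ := this
      exact hv i
    · rintro ⟨l, ⟨hl, hT⟩, rfl⟩
      obtain ⟨v, e⟩ := list_to_perm l hl
      refine ⟨v, fun i => ?_, e.symm⟩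
      have : (v i, v (finRotate 7 i)) ∈ {a | a ∈ arcsOf l} := by rw [← e]; exact ⟨i, rfl⟩
      exact hT _ this
  unfold numHC
  rw [h1, Set.InjOn.ncard_image, Set.ncard_coe_finset,
    List.toFinset_card_of_nodup (PP_nodup.filter _), List.countP_eq_length_filter]
  intro l hl l' hl' e
  simp only [Finset.mem_coe, List.mem_toFinset, List.mem_filter] at hl hl'
  rw [← decode_ok l hl.1, ← decode_ok l' hl'.1]
  congr 1
  funext x y
  have : (x, y) ∈ arcsOf l ↔ (x, y) ∈ arcsOf l' := Set.ext_iff.1 e (x, y)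
  simp [this]

lemma no23 (T : Fin 7 → Fin 7 → Prop) (hT : IsTournament T) : numHC T ≠ 23 := by
  classical
  rw [numHC_eq]
  have := not23 fun k => decide (T k.1 k.2)
  rw [List.countP_congr (q := fun l => decide (∀ a ∈ arcsOf l, T a.1 a.2))] at this
  · exact this
  intro l hl
  simp only [List.all_eq_true, decide_eq_true_eq]
  constructor
  · intro h a ha
    have hne := arcs_ne l hl a ha
    rcases KK_cov _ _ hne with hk | hk
    · by_contra hn
      have h1 := h _ hk
      simp only [hn, if_false, ww, List.all_eq_true] at h1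
      simpa using h1 a ha
    · by_contra hn
      have h2 : T a.2 a.1 := (hT.2 _ _ hne.symm).2 hn
      have h1 := h _ hk
      simp only [h2, if_true, uu, List.all_eq_true] at h1
      simpa using h1 a ha
  · intro h k _
    by_cases hk : T k.1 k.2
    · simp only [hk, if_true, uu, List.all_eq_true]
      intro a ha
      have h1 := h a ha
      by_contra hc
      simp only [Bool.not_eq_true', Bool.and_eq_false_iff, beq_eq_false_iff_ne, not_or,
        not_not] at hc
      rw [hc.1, hc.2] at h1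
      by_cases he : k.1 = k.2
      · rw [he] at hk; exact hT.1 _ hk
      · exact (hT.2 _ _ he).1 hk h1
    · simp only [hk, if_false, ww, List.all_eq_true]
      intro a ha
      have h1 := h a ha
      by_contra hc
      simp only [Bool.not_eq_true', Bool.and_eq_false_iff, beq_eq_false_iff_ne, not_or,
        not_not] at hc
      rw [hc.1, hc.2] at h1
      exact hk h1

/-- The quadratic residue tournament on seven vertices. -/
def QR (u v : Fin 7) : Prop := v - u = 1 ∨ v - u = 2 ∨ v - u = 4

instance : DecidableRel QR := fun u v => inferInstanceAs (Decidable (_ ∨ _ ∨ _))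

lemma QR_tour : IsTournament QR := ⟨by decide, by decide⟩

lemma QR_num : numHC QR = 24 := by
  rw [numHC_eq]; decide +kernel

theorem result : ¬ ∀ n : ℕ, 1 ≤ n → ∀ h : ℕ, h ≤ ho n →
    ∃ T : Fin n → Fin n → Prop, IsTournament T ∧ numHC T = h := by
  intro H
  have hb : BddAbove {h | ∃ T : Fin 7 → Fin 7 → Prop, IsTournament T ∧ numHC T = h} := by
    refine ⟨Nat.card (Set (Fin 7 × Fin 7)), ?_⟩
    rintro _ ⟨T, _, rfl⟩
    exact Set.ncard_le_card _
  have h24 : 24 ≤ ho 7 := le_csSup hb ⟨QR, QR_tour, QR_num⟩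
  obtain ⟨T, hT, h⟩ := H 7 (by norm_num) 23 (by omega)
  exact no23 T hT h

end Pool.Agent.Results.MP_9038fc_co.Gap
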